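import Mathlib

open MvPolynomial

namespace Pool.Agent.Results.MP_63137b_co.LocalizationFails

/-- The polynomial `c 0 * x_0 + … + c (n-1) * x_(n-1)` of the linear form with coefficient
vector `c`. -/
noncomputable def linForm {K : Type*} [Field K] {n : ℕ} (c : Fin n → K) :
    MvPolynomial (Fin n) K := ∑ i, C (c i) * X i

/-- The derivations of the polynomial ring `K[x_0,…,x_(n-1)]`. -/
abbrev Der (K : Type*) [Field K] (n : ℕ) :=
  Derivation K (MvPolynomial (Fin n) K) (MvPolynomial (Fin n) K)

/-- The linear hyperplane of `K^n` on which the form with coefficient vector `c` vanishes. -/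
def hyp {K : Type*} [Field K] {n : ℕ} (c : Fin n → K) : Submodule K (Fin n → K) where
  carrier := {v | c ⬝ᵥ v = 0}
  add_mem' := by
    intro a b ha hb
    simp only [Set.mem_ofPred_eq] at *
    rw [dotProduct_add, ha, hb, add_zero]
  zero_mem' := by simp
  smul_mem' := by
    intro r a ha
    simp only [Set.mem_ofPred_eq] at *
    rw [dotProduct_smul, ha, smul_zero]

/-- The forms `α j` define an arrangement: they are nonzero and pairwise non-proportional, so
that the hyperplanes `hyp (α j)` are distinct. -/
def IsArrangement {K : Type*} [Field K] {n : ℕ} {ι : Type} (α : ι → Fin n → K) : Prop :=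
  (∀ j, α j ≠ 0) ∧ ∀ i j, i ≠ j → ∀ c : K, α i ≠ c • α j

/-- The arrangement is essential and irreducible: the forms span the dual space and for no
partition of the set of forms into two nonempty parts do the spans of the parts form a direct
sum. -/
def EssentialIrreducible {K : Type*} [Field K] {n : ℕ} {ι : Type} (α : ι → Fin n → K) : Prop :=
  Submodule.span K (Set.range α) = ⊤ ∧
  ∀ J : Set ι, J.Nonempty → Jᶜ.Nonempty →
    ¬ Disjoint (Submodule.span K (α '' J)) (Submodule.span K (α '' Jᶜ))

/-- The module `D(A, m)` of the multiarrangement with forms `α j` and multiplicities `m j`. -/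
def LogDer {K : Type*} [Field K] {n : ℕ} {ι : Type} (α : ι → Fin n → K) (m : ι → ℕ) :
    Submodule (MvPolynomial (Fin n) K) (Der K n) where
  carrier := {θ | ∀ j, linForm (α j) ^ m j ∣ θ (linForm (α j))}
  add_mem' := by
    intro a b ha hb j
    rw [Derivation.add_apply]
    exact dvd_add (ha j) (hb j)
  zero_mem' := by intro j; simp
  smul_mem' := by
    intro r a ha j
    rw [Derivation.smul_apply, smul_eq_mul]
    exact Dvd.dvd.mul_left (ha j) r

/-- The map `Φ_θ`, sending `φ` to `∇_φ θ = ∑ φ(f_i) ∂_i`, where `θ = ∑ f_i ∂_i`. -/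
noncomputable def nabla {K : Type*} [Field K] {n : ℕ} (θ : Der K n) :
    Der K n →ₗ[MvPolynomial (Fin n) K] Der K n where
  toFun φ := mkDerivation K (fun i => φ (θ (X i)))
  map_add' := by
    intro a b
    apply MvPolynomial.derivation_ext
    intro i
    simp [mkDerivation_X]
  map_smul' := by
    intro r a
    apply MvPolynomial.derivation_ext
    intro i
    simp [mkDerivation_X]

/-- `θ` is a universal derivation for the multiarrangement `(α, μ)` (with `μ ≥ 1`): it is
homogeneous, lies in `D(A, μ)`, and `Φ_θ` is an isomorphism from `Der` onto `D(A, μ - 1)`. -/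
def IsUniversal {K : Type*} [Field K] {n : ℕ} {ι : Type} (α : ι → Fin n → K) (μ : ι → ℕ)
    (θ : Der K n) : Prop :=
  (∃ d : ℕ, ∀ i, (θ (X i)).IsHomogeneous d) ∧ θ ∈ LogDer α μ ∧
    Function.Injective (nabla θ) ∧ LinearMap.range (nabla θ) = LogDer α (fun j => μ j - 1)

/-- `X` belongs to the intersection lattice of the arrangement. -/
def IsFlat {K : Type*} [Field K] {n : ℕ} {ι : Type} (α : ι → Fin n → K)
    (Y : Submodule K (Fin n → K)) : Prop :=
  ∃ J : Set ι, Y = ⨅ j ∈ J, hyp (α j)

/-- The localization of `(α, μ)` at the subspace `Y`, regarded as a multiarrangement in the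
quotient space `V / Y`, admits a universal derivation. Here `V / Y` is identified with `K^r` by a
surjective linear map `p : V → K^r` with kernel `Y`, and `β j` is the form on `K^r` induced by
`α j`, for the indices `j` of the hyperplanes containing `Y`. -/
def LocalizationHasUniversal {K : Type*} [Field K] {n : ℕ} {ι : Type} (α : ι → Fin n → K)
    (μ : ι → ℕ) (Y : Submodule K (Fin n → K)) : Prop :=
  ∃ (r : ℕ) (p : (Fin n → K) →ₗ[K] (Fin r → K)) (β : {j : ι // Y ≤ hyp (α j)} → Fin r → K),
    Function.Surjective p ∧ LinearMap.ker p = Y ∧ (∀ j v, β j ⬝ᵥ p v = α j.1 ⬝ᵥ v) ∧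
    ∃ θ : Der K r, IsUniversal β (fun j => μ j.1) θ

section proof

variable {K : Type*} [Field K]

lemma linForm_isHomogeneous {n : ℕ} (c : Fin n → K) : (linForm c).IsHomogeneous 1 := by
  unfold linForm
  apply IsHomogeneous.sum
  intro i _
  have := (isHomogeneous_C (Fin n) (c i)).mul (isHomogeneous_X K i)
  simpa using this

lemma der_linForm {n : ℕ} (c : Fin n → K) (θ : Der K n) :
    θ (linForm c) = ∑ i, C (c i) * θ (X i) := by
  unfold linForm
  rw [map_sum]
  apply Finset.sum_congr rfl
  intro i _
  rw [← smul_eq_C_mul, Derivation.map_smul, smul_eq_C_mul]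

lemma linForm_single {n : ℕ} (i : Fin n) : linForm (Pi.single i (1 : K)) = X i := by
  unfold linForm
  rw [Finset.sum_eq_single i]
  · simp
  · intro j _ hj; simp [Pi.single_eq_of_ne hj]
  · simp

lemma linForm_sub {n : ℕ} (a b : Fin n → K) : linForm (a - b) = linForm a - linForm b := by
  unfold linForm
  rw [← Finset.sum_sub_distrib]
  apply Finset.sum_congr rfl
  intro i _
  simp [sub_mul]

/-- The index type: the `n` coordinate hyperplanes and the hyperplanes `x_i = x_j`, `i < j`. -/
abbrev Idx (n : ℕ) := Fin n ⊕ {q : Fin n × Fin n // q.1 < q.2}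

/-- The forms `x_i` and `x_i - x_j`. -/
def frm (K : Type*) [Field K] (n : ℕ) : Idx n → Fin n → K
  | Sum.inl i => Pi.single i 1
  | Sum.inr q => Pi.single q.1.1 1 - Pi.single q.1.2 1

/-- Multiplicity two on the coordinate hyperplanes and one on the others. -/
def mlt (n : ℕ) : Idx n → ℕ
  | Sum.inl _ => 2
  | Sum.inr _ => 1

lemma frm_arr (n : ℕ) : IsArrangement (frm K n) := by
  constructor
  · intro j
    rcases j with i | q
    · intro h
      have := congrFun h i
      simp [frm] at this
    · intro h
      have := congrFun h q.1.1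
      have hne : q.1.1 ≠ q.1.2 := ne_of_lt q.2
      simp [frm, hne] at this
  · intro i j hij c h
    rcases i with i | q <;> rcases j with j | q'
    · have hne : i ≠ j := fun h => hij (by rw [h])
      have := congrFun h i
      simp [frm, hne] at this
    · have h1 := congrFun h q'.1.1
      have h2 := congrFun h q'.1.2
      have hne : q'.1.1 ≠ q'.1.2 := ne_of_lt q'.2
      have h0 := congrFun h i
      simp only [frm, Pi.smul_apply, Pi.sub_apply, Pi.single_apply, smul_eq_mul] at h1 h2 h0
      simp only [hne, hne.symm, if_true, if_false] at h1 h2 h0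
      by_cases hi1 : i = q'.1.1
      · subst hi1
        simp [hne.symm] at h1 h2
        simp [← h1] at h2
      · by_cases hi2 : i = q'.1.2
        · subst hi2
          simp [hne] at h1 h2
          rw [← h1] at h2
          simp at h2
        · simp [hi1, hi2] at h0
    · have h1 := congrFun h q.1.1
      have h2 := congrFun h q.1.2
      have hne : q.1.1 ≠ q.1.2 := ne_of_lt q.2
      simp only [frm, Pi.smul_apply, Pi.sub_apply, Pi.single_apply, smul_eq_mul] at h1 h2
      simp only [hne, hne.symm, if_true, if_false] at h1 h2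
      by_cases hi1 : q.1.1 = j
      · have hi2 : q.1.2 ≠ j := fun h => hne (hi1.trans h.symm)
        simp [hi2] at h2
      · simp [hi1] at h1
    · have hne : q.1.1 ≠ q.1.2 := ne_of_lt q.2
      have hne' : q'.1.1 ≠ q'.1.2 := ne_of_lt q'.2
      have h1 := congrFun h q.1.1
      have h2 := congrFun h q.1.2
      simp only [frm, Pi.smul_apply, Pi.sub_apply, Pi.single_apply, smul_eq_mul] at h1 h2
      simp only [hne, hne.symm, if_true, if_false] at h1 h2
      have hlt := q.2
      have hlt' := q'.2
      by_cases ha : q.1.1 = q'.1.1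
      · by_cases hb : q.1.2 = q'.1.2
        · exact hij (by rw [Subtype.ext (Prod.ext ha hb)])
        · have hc : q.1.2 ≠ q'.1.1 := by rw [← ha]; exact hne.symm
          simp [hb, hc] at h2
      · by_cases ha2 : q.1.1 = q'.1.2
        · by_cases hb : q.1.2 = q'.1.1
          · rw [ha2, hb] at hlt
            exact absurd hlt (not_lt.mpr hlt'.le)
          · have hc : q.1.2 ≠ q'.1.2 := by rw [← ha2]; exact hne.symm
            simp [hb, hc] at h2
        · simp [ha, ha2] at h1

lemma frm_mem_span_left {n : ℕ} (J : Set (Idx n)) {j : Idx n} (hj : j ∈ J) :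
    frm K n j ∈ Submodule.span K (frm K n '' J) :=
  Submodule.subset_span ⟨j, hj, rfl⟩

lemma frm_irred (n : ℕ) : EssentialIrreducible (frm K n) := by
  constructor
  · rw [eq_top_iff]
    intro v _
    have hv : v = ∑ i, v i • frm K n (Sum.inl i) := by
      funext k
      simp [frm, Finset.sum_apply, Pi.single_apply]
    rw [hv]
    apply Submodule.sum_mem
    intro i _
    exact Submodule.smul_mem _ _ (Submodule.subset_span ⟨_, rfl⟩)
  -- a key symmetric fact
  have arr := frm_arr (K := K) n
  have notdisj : ∀ J : Set (Idx n), ∀ j ∈ J, frm K n j ∈ Submodule.span K (frm K n '' Jᶜ) →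
      ¬ Disjoint (Submodule.span K (frm K n '' J)) (Submodule.span K (frm K n '' Jᶜ)) := by
    intro J j hj hmem hd
    have := Submodule.disjoint_def.mp hd _ (frm_mem_span_left J hj) hmem
    exact arr.1 j this
  -- coordinate forms in different parts
  have mixed : ∀ J : Set (Idx n), ∀ i k : Fin n, Sum.inl i ∈ J → Sum.inl k ∉ J →
      ¬ Disjoint (Submodule.span K (frm K n '' J)) (Submodule.span K (frm K n '' Jᶜ)) := by
    intro J i k hi hk
    have hik : i ≠ k := fun h => hk (h ▸ hi)
    -- the difference, in one of the two orders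
    obtain ⟨q, hq⟩ : ∃ q : {q : Fin n × Fin n // q.1 < q.2},
        frm K n (Sum.inl i) - frm K n (Sum.inl k) = frm K n (Sum.inr q) ∨
        frm K n (Sum.inl i) - frm K n (Sum.inl k) = - frm K n (Sum.inr q) := by
      rcases lt_or_gt_of_ne hik with h | h
      · exact ⟨⟨(i, k), h⟩, Or.inl rfl⟩
      · refine ⟨⟨(k, i), h⟩, Or.inr ?_⟩
        simp [frm]
    by_cases hqJ : Sum.inr q ∈ J
    · -- then the form `x_k` lies in both spans
      intro hd
      have hkJ : frm K n (Sum.inl k) ∈ Submodule.span K (frm K n '' J) := by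
        have : frm K n (Sum.inl k) =
            frm K n (Sum.inl i) - (frm K n (Sum.inl i) - frm K n (Sum.inl k)) := by abel
        rw [this]
        apply Submodule.sub_mem _ (frm_mem_span_left J hi)
        rcases hq with hq | hq <;> rw [hq]
        · exact frm_mem_span_left J hqJ
        · exact Submodule.neg_mem _ (frm_mem_span_left J hqJ)
      have := Submodule.disjoint_def.mp hd _ hkJ (frm_mem_span_left Jᶜ hk)
      exact arr.1 _ this
    · intro hd
      have hiJ : frm K n (Sum.inl i) ∈ Submodule.span K (frm K n '' Jᶜ) := by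
        have : frm K n (Sum.inl i) =
            frm K n (Sum.inl k) + (frm K n (Sum.inl i) - frm K n (Sum.inl k)) := by abel
        rw [this]
        apply Submodule.add_mem _ (frm_mem_span_left Jᶜ hk)
        rcases hq with hq | hq <;> rw [hq]
        · exact frm_mem_span_left Jᶜ hqJ
        · exact Submodule.neg_mem _ (frm_mem_span_left Jᶜ hqJ)
      have := Submodule.disjoint_def.mp hd _ (frm_mem_span_left J hi) hiJ
      exact arr.1 _ this
  -- all coordinate forms in one part
  have uniform : ∀ J : Set (Idx n), (∀ i : Fin n, Sum.inl i ∈ J) → Jᶜ.Nonempty →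
      ¬ Disjoint (Submodule.span K (frm K n '' J)) (Submodule.span K (frm K n '' Jᶜ)) := by
    intro J hall hne hd
    obtain ⟨j, hj⟩ := hne
    have hjJ : frm K n j ∈ Submodule.span K (frm K n '' J) := by
      rcases j with i | q
      · exact frm_mem_span_left J (hall i)
      · have : frm K n (Sum.inr q) = frm K n (Sum.inl q.1.1) - frm K n (Sum.inl q.1.2) := rfl
        rw [this]
        exact Submodule.sub_mem _ (frm_mem_span_left J (hall _)) (frm_mem_span_left J (hall _))
    have := Submodule.disjoint_def.mp hd _ hjJ (frm_mem_span_left Jᶜ hj)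
    exact arr.1 _ this
  intro J hJ hJc
  by_cases h1 : ∀ i : Fin n, Sum.inl i ∈ J
  · exact uniform J h1 hJc
  · push Not at h1
    obtain ⟨k, hk⟩ := h1
    by_cases h2 : ∃ i : Fin n, Sum.inl i ∈ J
    · obtain ⟨i, hi⟩ := h2
      exact mixed J i k hi hk
    · push Not at h2
      intro hd
      have := uniform Jᶜ h2 (by rwa [compl_compl])
      rw [compl_compl] at this
      exact this hd.symm

/-- The derivation `∑ x_i^2 ∂_i`. -/
noncomputable def sq (K : Type*) [Field K] (n : ℕ) : Der K n :=
  mkDerivation K (fun i => (X i) ^ 2)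

lemma sq_X {n : ℕ} (i : Fin n) : sq K n (X i) = X i ^ 2 := by
  simp [sq, mkDerivation_X]

lemma nabla_X {n : ℕ} (θ φ : Der K n) (i : Fin n) : nabla θ φ (X i) = φ (θ (X i)) := by
  simp [nabla, mkDerivation_X]

lemma sq_universal [CharZero K] (n : ℕ) : IsUniversal (frm K n) (mlt n) (sq K n) := by
  refine ⟨⟨2, fun i => ?_⟩, ?_, ?_, ?_⟩
  · rw [sq_X]
    simpa using (isHomogeneous_X K i).pow 2
  · intro j
    rcases j with i | q
    · simp only [frm, mlt, linForm_single, sq_X]
      exact dvd_refl _
    · simp only [frm, mlt, linForm_sub, linForm_single, map_sub, sq_X, pow_one]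
      exact ⟨X q.1.1 + X q.1.2, by ring⟩
  · intro a b hab
    apply MvPolynomial.derivation_ext
    intro i
    have h := congrArg (fun D : Der K n => D (X i)) hab
    simp only [nabla_X, sq_X] at h
    rw [Derivation.leibniz_pow, Derivation.leibniz_pow] at h
    simp only [Nat.add_one_sub_one, pow_one, smul_eq_mul, nsmul_eq_mul, Nat.cast_ofNat] at h
    have hX : (X i : MvPolynomial (Fin n) K) ≠ 0 := X_ne_zero i
    have h2 : (2 : MvPolynomial (Fin n) K) ≠ 0 := two_ne_zero
    exact mul_left_cancel₀ hX (mul_left_cancel₀ h2 h)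
  · ext η
    constructor
    · rintro ⟨φ, rfl⟩ j
      rcases j with i | q
      · simp only [frm, mlt, linForm_single, nabla_X, sq_X]
        rw [Derivation.leibniz_pow]
        simp only [Nat.add_one_sub_one, pow_one, smul_eq_mul, nsmul_eq_mul, Nat.cast_ofNat]
        exact ⟨2 * φ (X i), by ring⟩
      · simp [mlt]
    · intro hη
      have hdiv : ∀ i : Fin n, ∃ g, η (X i) = X i * g := by
        intro i
        have := hη (Sum.inl i)
        simp only [frm, mlt, linForm_single] at this
        have h' : X i ∣ η (X i) := by simpa using this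
        exact h'
      choose g hg using hdiv
      refine ⟨mkDerivation K (fun i => C (1 / 2 : K) * g i), ?_⟩
      apply MvPolynomial.derivation_ext
      intro i
      rw [nabla_X, sq_X, Derivation.leibniz_pow, mkDerivation_X, hg i]
      simp only [Nat.add_one_sub_one, pow_one, smul_eq_mul, nsmul_eq_mul, Nat.cast_ofNat]
      have h2 : (2 : MvPolynomial (Fin n) K) * C (1 / 2 : K) = 1 := by
        have : (2 : MvPolynomial (Fin n) K) = C 2 := (map_ofNat C 2).symm
        rw [this, ← C_mul]
        simp
      calc (2 : MvPolynomial (Fin n) K) * (X i * (C (1 / 2 : K) * g i))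
          = (2 * C (1 / 2 : K)) * (X i * g i) := by ring
        _ = X i * g i := by rw [h2, one_mul]

/-- The derivation with constant coefficient vector `v`. -/
noncomputable def cst {n : ℕ} (v : Fin n → K) : Der K n := mkDerivation K (fun i => C (v i))

lemma cst_X {n : ℕ} (v : Fin n → K) (i : Fin n) : cst v (X i) = C (v i) := by
  simp [cst, mkDerivation_X]

lemma cst_linForm {n : ℕ} (v c : Fin n → K) : cst v (linForm c) = C (c ⬝ᵥ v) := by
  rw [der_linForm]
  simp [cst_X, dotProduct]

lemma der_apply {n : ℕ} (φ : Der K n) (f : MvPolynomial (Fin n) K) :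
    φ f = ∑ i, φ (X i) * pderiv i f := by
  have hs : ∀ (g : MvPolynomial (Fin n) K), (∑ i, φ (X i) • (pderiv i : Der K n)) g
      = ∑ i, φ (X i) * pderiv i g := by
    intro g
    have := congrFun (map_sum (Derivation.coeFnAddMonoidHom (R := K)
      (A := MvPolynomial (Fin n) K) (M := MvPolynomial (Fin n) K))
      (fun i => φ (X i) • (pderiv i : Der K n)) Finset.univ) g
    rw [Finset.sum_apply] at this
    exact this
  have h : φ = ∑ i, φ (X i) • (pderiv i : Der K n) := by
    apply MvPolynomial.derivation_ext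
    intro k
    rw [hs]
    simp [pderiv_X, Pi.single_apply]
  conv_lhs => rw [h]
  rw [hs]

lemma constantCoeff_linForm {n : ℕ} (c : Fin n → K) : constantCoeff (linForm c) = 0 := by
  simp [linForm]

lemma constantCoeff_hom {n : ℕ} {f : MvPolynomial (Fin n) K} {d : ℕ} (hf : f.IsHomogeneous d)
    (hd : d ≠ 0) : constantCoeff f = 0 := by
  rw [constantCoeff_eq]
  apply hf.coeff_eq_zero
  simpa using hd.symm

lemma hom_zero {n : ℕ} {f : MvPolynomial (Fin n) K} (hf : f.IsHomogeneous 0) :
    f = C (constantCoeff f) := by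
  rw [← totalDegree_zero_iff_isHomogeneous] at hf
  rw [constantCoeff_eq]
  exact totalDegree_eq_zero_iff_eq_C.mp hf

lemma lt12 (k : ℕ) : (1 : Fin (k + 3)) < 2 := by
  rw [Fin.lt_def]
  have h2 : ((2 : Fin (k + 3)) : ℕ) = 2 % (k + 3) := rfl
  have h1 : ((1 : Fin (k + 3)) : ℕ) = 1 % (k + 3) := rfl
  rw [h1, h2, Nat.mod_eq_of_lt (by omega), Nat.mod_eq_of_lt (by omega)]
  norm_num

lemma lt01 (k : ℕ) : (0 : Fin (k + 3)) < 1 := by
  rw [Fin.lt_def]
  have h1 : ((1 : Fin (k + 3)) : ℕ) = 1 % (k + 3) := rfl
  rw [h1, Nat.mod_eq_of_lt (by omega)]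
  norm_num

/-- The multiarrangement with forms `x_i`, `x_i - x_j` has a localization (in the quotient space)
with no universal derivation. -/
lemma no_universal (k : ℕ) (Y : Submodule K (Fin (k + 3) → K))
    (hY : Y = hyp (frm K (k + 3) (Sum.inl 0)) ⊓
        hyp (frm K (k + 3) (Sum.inr ⟨(1, 2), lt12 k⟩))) :
    ¬ LocalizationHasUniversal (frm K (k + 3)) (mlt (k + 3)) Y := by
  rintro ⟨r, p, β, -, hker, hβ, θ, ⟨d, hd⟩, -, hinj, hrange⟩
  have h12 : (1 : Fin (k + 3)) ≠ 2 := (lt12 k).ne
  have h01 : (0 : Fin (k + 3)) ≠ 1 := (lt01 k).ne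
  have h02 : (0 : Fin (k + 3)) ≠ 2 := ((lt01 k).trans (lt12 k)).ne
  have memY : ∀ v : Fin (k + 3) → K, v ∈ Y ↔ v 0 = 0 ∧ v 1 = v 2 := by
    intro v
    rw [hY, Submodule.mem_inf]
    have a1 : v ∈ hyp (frm K (k + 3) (Sum.inl 0)) ↔ v 0 = 0 := by
      change (frm K (k + 3) (Sum.inl 0)) ⬝ᵥ v = 0 ↔ _
      simp [frm]
    have a2 : v ∈ hyp (frm K (k + 3) (Sum.inr ⟨(1, 2), lt12 k⟩)) ↔ v 1 = v 2 := by
      change (frm K (k + 3) (Sum.inr ⟨(1, 2), lt12 k⟩)) ⬝ᵥ v = 0 ↔ _
      simp [frm, sub_dotProduct, sub_eq_zero]
    rw [a1, a2]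
  -- the distinguished index
  let j0 : {j : Idx (k + 3) // Y ≤ hyp (frm K (k + 3) j)} := ⟨Sum.inl 0, by rw [hY]; exact inf_le_left⟩
  -- only index of coordinate type
  have only : ∀ j : {j : Idx (k + 3) // Y ≤ hyp (frm K (k + 3) j)}, ∀ i : Fin (k + 3),
      j.1 = Sum.inl i → i = 0 := by
    intro j i hji
    by_contra hi
    have hle := j.2
    rw [hji] at hle
    by_cases hi12 : i = 1 ∨ i = 2
    · have hv : (Pi.single 1 1 + Pi.single 2 1 : Fin (k + 3) → K) ∈ Y := by
        rw [memY]
        constructor
        · simp [Pi.single_apply, h01, h02]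
        · simp [Pi.single_apply, h12, h12.symm]
      have := hle hv
      change (frm K (k + 3) (Sum.inl i)) ⬝ᵥ _ = 0 at this
      rcases hi12 with h | h
      · subst h
        simp [frm, Pi.single_apply, h12, h12.symm] at this
      · subst h
        simp [frm, Pi.single_apply, h12, h12.symm] at this
    · push Not at hi12
      have hv : (Pi.single i 1 : Fin (k + 3) → K) ∈ Y := by
        rw [memY]
        constructor
        · simp [Pi.single_apply, Ne.symm hi]
        · simp [Pi.single_apply, Ne.symm hi12.1, Ne.symm hi12.2]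
      have := hle hv
      change (frm K (k + 3) (Sum.inl i)) ⬝ᵥ _ = 0 at this
      simp [frm] at this
  set w : Fin r → K := p (Pi.single 1 1) with hw
  set u : Fin r → K := p (Pi.single 0 1) with hu
  have hb0w : β j0 ⬝ᵥ w = 0 := by
    rw [hw, hβ]
    simp [j0, frm, Pi.single_apply, h01]
  have hb0u : β j0 ⬝ᵥ u = 1 := by
    rw [hu, hβ]
    simp [j0, frm]
  have hw0 : w ≠ 0 := by
    intro h
    have : (Pi.single 1 1 : Fin (k + 3) → K) ∈ LinearMap.ker p := by
      rw [LinearMap.mem_ker]; exact h
    rw [hker, memY] at this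
    simp [Pi.single_apply, h12.symm] at this
  have hA : cst w ∈ LogDer β (fun j => mlt (k + 3) j.1 - 1) := by
    intro j
    rw [cst_linForm]
    rcases hj : j.1 with i | q'
    · have hi := only j i hj
      have : j = j0 := Subtype.ext (by rw [hj, hi])
      rw [this, hb0w]
      simp
    · simp [mlt, hj]
  have hB : cst u ∉ LogDer β (fun j => mlt (k + 3) j.1 - 1) := by
    intro h
    have h1 := h j0
    rw [cst_linForm, hb0u] at h1
    have h2 : linForm (β j0) ∣ (C 1 : MvPolynomial (Fin r) K) := by simpa [j0, mlt] using h1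
    obtain ⟨g, hg⟩ := h2
    have := congrArg constantCoeff hg
    rw [map_mul, constantCoeff_linForm] at this
    simp at this
  have hd1 : d = 1 := by
    by_contra hne
    rw [← hrange] at hA
    obtain ⟨φ, hφ⟩ := hA
    apply hw0
    funext l
    have h := congrArg (fun D : Der K r => constantCoeff (D (X l))) hφ
    simp only [nabla_X, cst_X, constantCoeff_C] at h
    rw [der_apply, map_sum] at h
    rw [← h]
    apply Finset.sum_eq_zero
    intro i _
    rw [map_mul]
    rcases Nat.eq_zero_or_pos d with h0 | h0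
    · have := hd l
      rw [h0] at this
      rw [hom_zero this]
      simp
    · have h2 : d - 1 ≠ 0 := by omega
      rw [constantCoeff_hom ((hd l).pderiv) h2, mul_zero]
  subst hd1
  let t : Matrix (Fin r) (Fin r) K := fun l i => constantCoeff (pderiv i (θ (X l)))
  have ht : ∀ l i, pderiv i (θ (X l)) = C (t l i) := fun l i => hom_zero (hd l).pderiv
  have hcst : ∀ a : Fin r → K, nabla θ (cst a) = cst (t.mulVec a) := by
    intro a
    apply MvPolynomial.derivation_ext
    intro l
    rw [nabla_X, der_apply, cst_X]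
    simp only [cst_X, ht, Matrix.mulVec, dotProduct]
    rw [map_sum]
    apply Finset.sum_congr rfl
    intro i _
    rw [← C_mul, mul_comm]
  have hTinj : Function.Injective t.mulVecLin := by
    rw [injective_iff_map_eq_zero]
    intro a ha
    rw [Matrix.mulVecLin_apply] at ha
    have h1 : nabla θ (cst a) = nabla θ 0 := by
      rw [hcst, ha, map_zero]
      apply MvPolynomial.derivation_ext
      intro l
      simp [cst_X]
    have h2 := hinj h1
    funext l
    have := congrArg (fun D : Der K r => D (X l)) h2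
    simpa [cst_X] using this
  have hTsurj : Function.Surjective t.mulVecLin := LinearMap.surjective_of_injective hTinj
  obtain ⟨a, ha⟩ := hTsurj u
  rw [Matrix.mulVecLin_apply] at ha
  apply hB
  rw [← hrange]
  exact ⟨cst a, by rw [hcst, ha]⟩

end proof

/-- For every field `K` of characteristic zero and every `n ≥ 3` there are an essential
irreducible multiarrangement in `K^n`, with all multiplicities at least one, that admits a
universal derivation, and a member `Y` of its intersection lattice such that the localization at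
`Y`, regarded in `V / Y`, admits no universal derivation. -/
theorem result (K : Type*) [Field K] [CharZero K] (n : ℕ) (hn : 3 ≤ n) :
    ∃ (ι : Type) (_ : Fintype ι) (α : ι → Fin n → K) (μ : ι → ℕ) (Y : Submodule K (Fin n → K)),
      IsArrangement α ∧ EssentialIrreducible α ∧ (∀ j, 1 ≤ μ j) ∧ (∃ θ, IsUniversal α μ θ) ∧
      IsFlat α Y ∧ ¬ LocalizationHasUniversal α μ Y := by
  obtain ⟨k, rfl⟩ : ∃ k, n = k + 3 := ⟨n - 3, by omega⟩
  refine ⟨Idx (k + 3), inferInstance, frm K (k + 3), mlt (k + 3), _, frm_arr _, frm_irred _,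
    ?_, ⟨_, sq_universal _⟩, ?_, no_universal k _ rfl⟩
  · intro j
    rcases j with i | q <;> simp [mlt]
  · refine ⟨{Sum.inl 0, Sum.inr ⟨(1, 2), lt12 k⟩}, ?_⟩
    rw [iInf_pair]

end Pool.Agent.Results.MP_63137b_co.LocalizationFails
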